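import Mathlib

set_option autoImplicit false

namespace Pool.Agent.Results.MP_06c496_co.Reach

open Finset

/-- vertex centroid; the plane is identified with the complex numbers -/
noncomputable def cen {n : ℕ} (v : Fin n → ℂ) : ℂ := (∑ i, v i) / n

/-- one vertex-centroid move from `v` to `w` -/
def Move {n : ℕ} (v w : Fin n → ℂ) : Prop :=
  ∃ i, v i ≠ cen v ∧ w i ∈ line[ℝ, v i, cen v] ∧ ∀ j, j ≠ i → w j = v j

/-- simple polygon with vertices `v 0, v 1, ...` in cyclic order -/
def IsSimple {n : ℕ} [NeZero n] (v : Fin n → ℂ) : Prop :=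
  Function.Injective v ∧
  (∀ i, segment ℝ (v i) (v (i + 1)) ∩ segment ℝ (v (i + 1)) (v (i + 1 + 1)) = {v (i + 1)}) ∧
  (∀ i j, j ≠ i → j ≠ i + 1 → i ≠ j + 1 →
    Disjoint (segment ℝ (v i) (v (i + 1))) (segment ℝ (v j) (v (j + 1))))

/-- vertices of a regular polygon, in cyclic order -/
def IsRegular {n : ℕ} (w : Fin n → ℂ) : Prop :=
  ∃ a b : ℂ, a ≠ 0 ∧ ∀ k : Fin n, w k = b + a * Complex.exp (2 * Real.pi * Complex.I * (k : ℕ) / n)

def cross (z w : ℂ) : ℝ := z.re * w.im - z.im * w.re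

section pure

variable (H : ℝ → ℝ → ℝ → ℝ → Prop) (ε : ℝ)

structure Gen : Prop where
  mul : ∀ a b c d a' b' c' d', H a b c d → H a' b' c' d' →
    H (a' * a + b' * c) (a' * b + b' * d) (c' * a + d' * c) (c' * b + d' * d)
  A : ∀ l, l ≠ 0 → H l (ε * (1 - l)) 0 1
  B : ∀ l, l ≠ 0 → H 1 0 (ε * (1 - l)) l

variable {H ε}

lemma Gen.swap (g : Gen H ε) : Gen (fun a b c d => H d c b a) ε := by
  refine ⟨?_, g.B, g.A⟩
  intro a b c d a' b' c' d' h h'
  have := g.mul _ _ _ _ _ _ _ _ h h'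
  convert this using 1 <;> ring

lemma Gen.shear (g : Gen H ε) (h0 : 0 < ε) (h1 : ε ≤ 1 / 2) (s : ℝ) : H 1 s 0 1 := by
  have e1 : 0 < 1 - ε ^ 2 := by nlinarith
  have e2 : 0 < 1 - 2 * ε ^ 2 := by nlinarith
  have U : ∀ l, l ≠ 0 → H 1 ((l - 1) * (1 - ε ^ 2) / ε) 0 l := by
    intro l hl
    have a := g.B (1 - 1 / ε ^ 2) (by
      have : 1 - 1 / ε ^ 2 = -(1 - ε ^ 2) / ε ^ 2 := by field_simp; ring
      rw [this]; exact div_ne_zero (by linarith) (by positivity))
    have b := g.B (-ε ^ 2 / (1 - ε ^ 2)) (div_ne_zero (by nlinarith) e1.ne')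
    have := g.mul _ _ _ _ _ _ _ _ (g.mul _ _ _ _ _ _ _ _ a (g.A l hl)) b
    convert this using 1 <;> field_simp <;> ring
  have S : ∀ t, t ≠ 0 → H 1 ((1 - 1 / t) * ((1 - 2 * ε ^ 2) / ε)) 0 1 := by
    intro t ht
    have := g.mul _ _ _ _ _ _ _ _ (g.mul _ _ _ _ _ _ _ _ (g.mul _ _ _ _ _ _ _ _
      (U 2 two_ne_zero) (g.A t ht)) (U (1 / 2) (by norm_num))) (g.A (1 / t) (by simpa using ht))
    convert this using 1 <;> field_simp <;> ring
  have hk : 0 < (1 - 2 * ε ^ 2) / ε := by positivity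
  generalize (1 - 2 * ε ^ 2) / ε = κ at S hk
  have S' : ∀ s, s ≠ κ → H 1 s 0 1 := by
    intro s hs
    have hs' : κ - s ≠ 0 := sub_ne_zero.2 hs.symm
    have := S (κ / (κ - s)) (div_ne_zero hk.ne' hs')
    convert this using 1
    field_simp; ring
  by_cases hs : s = κ
  · have := g.mul _ _ _ _ _ _ _ _ (S' (κ / 2) (by linarith)) (S' (κ / 2) (by linarith))
    convert this using 1 <;> (try rw [hs]) <;> ring
  · exact S' s hs

lemma Gen.all (g : Gen H ε) (h0 : 0 < ε) (h1 : ε ≤ 1 / 2) (a b c d : ℝ) (hd : a * d - b * c ≠ 0) :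
    H a b c d := by
  have up := g.shear h0 h1
  have lo : ∀ s, H 1 0 s 1 := g.swap.shear h0 h1
  have d1 : ∀ l, l ≠ 0 → H l 0 0 1 := by
    intro l hl
    have := g.mul _ _ _ _ _ _ _ _ (g.A l hl) (up (-(ε * (1 - l))))
    convert this using 1 <;> ring
  have d2 : ∀ l, l ≠ 0 → H 1 0 0 l := by
    intro l hl
    have := g.mul _ _ _ _ _ _ _ _ (g.B l hl) (lo (-(ε * (1 - l))))
    convert this using 1 <;> ring
  have main : ∀ a b c d : ℝ, a * d - b * c ≠ 0 → a ≠ 0 → H a b c d := by
    intro a b c d hd ha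
    have := g.mul _ _ _ _ _ _ _ _ (g.mul _ _ _ _ _ _ _ _ (g.mul _ _ _ _ _ _ _ _
      (up (b / a)) (d1 a ha)) (d2 ((a * d - b * c) / a) (div_ne_zero hd ha))) (lo (c / a))
    convert this using 1 <;> field_simp <;> ring
  by_cases ha : a = 0
  · have hc : c ≠ 0 := by rintro rfl; apply hd; rw [ha]; ring
    have := g.mul _ _ _ _ _ _ _ _ (main (a + c) (b + d) c d (by convert hd using 1; ring)
      (by rw [ha, zero_add]; exact hc)) (up (-1))
    convert this using 1 <;> ring
  · exact main a b c d hd ha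

end pure

abbrev Rch {n : ℕ} (v w : Fin n → ℂ) : Prop := Relation.ReflTransGen Move v w

def good {n : ℕ} (v : Fin n → ℂ) (i j : Fin n) : Prop := cross (v i - cen v) (v j - cen v) ≠ 0

noncomputable def cfg {n : ℕ} (v : Fin n → ℂ) (i j : Fin n) (x y : ℂ) : Fin n → ℂ :=
  Function.update (Function.update v i x) j y

section
variable {n : ℕ} (v : Fin n → ℂ) {i j : Fin n} (hij : i ≠ j)
include hij

lemma cfg_i (x y : ℂ) : cfg v i j x y i = x := by simp [cfg, Function.update_of_ne hij]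
omit hij in
lemma cfg_j (x y : ℂ) : cfg v i j x y j = y := by simp [cfg]
omit hij in
lemma cfg_o (x y : ℂ) (k : Fin n) (h1 : k ≠ i) (h2 : k ≠ j) : cfg v i j x y k = v k := by
  simp [cfg, Function.update_of_ne h1, Function.update_of_ne h2]

lemma cfg_sum (x y : ℂ) : ∑ k, cfg v i j x y k = (∑ k, v k - v i - v j) + x + y := by
  unfold cfg
  rw [sum_update_of_mem (mem_univ j), sdiff_singleton_eq_erase, sum_erase_eq_sub (mem_univ j),
    sum_update_of_mem (mem_univ i), sdiff_singleton_eq_erase, sum_erase_eq_sub (mem_univ i),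
    Function.update_of_ne hij.symm]
  ring

end

lemma move_of {n : ℕ} (v w : Fin n → ℂ) (i : Fin n) (t : ℝ) (h : v i ≠ cen v)
    (h2 : w i = v i + t * (cen v - v i)) (h3 : ∀ j, j ≠ i → w j = v j) : Rch v w := by
  refine Relation.ReflTransGen.single ⟨i, h, ?_, h3⟩
  have := AffineMap.lineMap_mem_affineSpan_pair (k := ℝ) t (v i) (cen v)
  convert this using 1
  rw [h2, AffineMap.lineMap_apply]
  simp [add_comm]

lemma two {n : ℕ} (hn : 3 ≤ n) (v w : Fin n → ℂ) (i j : Fin n) (hij : i ≠ j) (hv : good v i j)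
    (hw : good w i j) (h : ∀ k, k ≠ i → k ≠ j → w k = v k) : Rch v w := by
  have hn' : (3 : ℝ) ≤ n := by exact_mod_cast hn
  have n0 : (n : ℂ) ≠ 0 := by exact_mod_cast (show n ≠ 0 by omega)
  have n1 : (n : ℂ) - 1 ≠ 0 := by
    have : ((n : ℝ) - 1) ≠ 0 := by linarith
    exact_mod_cast this
  have n2 : (n : ℂ) - 2 ≠ 0 := by
    have : ((n : ℝ) - 2) ≠ 0 := by linarith
    exact_mod_cast this
  set c : ℂ := (∑ k, v k - v i - v j) / (n - 2) with hc
  have hcen : ∀ p q, cen (cfg v i j (c + p) (c + q)) = c + (p + q) / n := by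
    intro p q
    rw [cen, cfg_sum v hij, hc]; field_simp; ring
  let H : ℝ → ℝ → ℝ → ℝ → Prop := fun a b c' d => a * d - b * c' ≠ 0 ∧ ∀ p q, cross p q ≠ 0 →
    Rch (cfg v i j (c + p) (c + q)) (cfg v i j (c + (a * p + b * q)) (c + (c' * p + d * q)))
  have crs : ∀ (a b c' d : ℝ) (p q : ℂ),
      cross (a * p + b * q) (c' * p + d * q) = (a * d - b * c') * cross p q := by
    intro a b c' d p q; simp [cross]; ring
  have g : Gen H (1 / (n - 1)) := by
    refine ⟨?_, ?_, ?_⟩
    · intro a b c' d a' b' c'' d' h1 h2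
      refine ⟨by convert mul_ne_zero h1.1 h2.1 using 1; ring, fun p q hpq => ?_⟩
      have := (h1.2 p q hpq).trans (h2.2 _ _ (by rw [crs]; exact mul_ne_zero h1.1 hpq))
      convert this using 3 <;> push_cast <;> ring
    · intro l hl
      refine ⟨by simpa using hl, fun p q hpq => ?_⟩
      refine move_of _ _ i ((1 - l) * n / (n - 1)) ?_ ?_ ?_
      · rw [hcen, cfg_i v hij]
        intro e
        apply hpq
        have : q = ((n - 1 : ℝ) : ℂ) * p := by
          push_cast; field_simp at e; linear_combination -e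
        rw [this]; simp [cross]; ring
      · rw [hcen, cfg_i v hij, cfg_i v hij]; push_cast; field_simp; ring
      · intro k hk
        by_cases hkj : k = j
        · rw [hkj, cfg_j, cfg_j]; simp
        · rw [cfg_o _ _ _ _ hk hkj, cfg_o _ _ _ _ hk hkj]
    · intro l hl
      refine ⟨by simpa using hl, fun p q hpq => ?_⟩
      refine move_of _ _ j ((1 - l) * n / (n - 1)) ?_ ?_ ?_
      · rw [hcen, cfg_j v]
        intro e
        apply hpq
        have : p = ((n - 1 : ℝ) : ℂ) * q := by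
          push_cast; field_simp at e; linear_combination -e
        rw [this]; simp [cross]; ring
      · rw [hcen, cfg_j v, cfg_j v]; push_cast; field_simp; ring
      · intro k hk
        by_cases hki : k = i
        · rw [hki, cfg_i v hij, cfg_i v hij]; simp
        · rw [cfg_o _ _ _ _ hki hk, cfg_o _ _ _ _ hki hk]
  have hall := g.all (by have : (0 : ℝ) < n - 1 := by linarith
                         positivity)
    (by rw [div_le_div_iff₀ (by linarith) (by norm_num)]; linarith)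
  have ev : ∀ u : Fin n → ℂ, (∀ k, k ≠ i → k ≠ j → u k = v k) →
      cfg v i j (c + (u i - c)) (c + (u j - c)) = u := by
    intro u hu
    funext k
    by_cases h1 : k = i
    · rw [h1, cfg_i v hij]; ring
    · by_cases h2 : k = j
      · rw [h2, cfg_j]; ring
      · rw [cfg_o _ _ _ _ h1 h2, hu k h1 h2]
  have gd : ∀ u : Fin n → ℂ, (∀ k, k ≠ i → k ≠ j → u k = v k) → good u i j →
      cross (u i - c) (u j - c) ≠ 0 := by
    intro u hu hg e
    apply hg
    have e1 : cen u = c + ((u i - c) + (u j - c)) / n := by rw [← hcen, ev u hu]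
    have e2 : u i - cen u = ((1 - 1 / n : ℝ) : ℂ) * (u i - c) + ((-1 / n : ℝ) : ℂ) * (u j - c) := by
      rw [e1]; push_cast; ring
    have e3 : u j - cen u = ((-1 / n : ℝ) : ℂ) * (u i - c) + ((1 - 1 / n : ℝ) : ℂ) * (u j - c) := by
      rw [e1]; push_cast; ring
    rw [e2, e3, crs, e, mul_zero]
  have g1 := gd v (fun _ _ _ => rfl) hv
  have g2 := gd w h hw
  have dec : ∀ p q z : ℂ, cross p q ≠ 0 →
      z = ((cross z q / cross p q : ℝ) : ℂ) * p + ((cross p z / cross p q : ℝ) : ℂ) * q := by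
    intro p q z hpq
    apply Complex.ext
    · simp only [Complex.add_re, Complex.re_ofReal_mul]; field_simp; simp only [cross]; ring
    · simp only [Complex.add_im, Complex.im_ofReal_mul]; field_simp; simp only [cross]; ring
  have d1 := dec _ _ (w i - c) g1
  have d2 := dec _ _ (w j - c) g1
  have := (hall _ _ _ _ (by
    intro e; apply g2; rw [d1, d2, crs, e, zero_mul])).2 _ _ g1
  rwa [← d1, ← d2, ev v (fun _ _ _ => rfl), ev w h] at this

lemma quad_fin (α β γ : ℝ) (h : α ≠ 0) : {b : ℝ | α * b ^ 2 + β * b + γ = 0}.Finite := by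
  have hp : (Polynomial.C α * Polynomial.X ^ 2 + Polynomial.C β * Polynomial.X + Polynomial.C γ
      : Polynomial ℝ) ≠ 0 := by
    intro h0
    have h2 := congrArg (fun p : Polynomial ℝ => p.coeff 2) h0
    simp at h2
    exact h h2
  refine (Polynomial.finite_setOfPred_isRoot hp).subset ?_
  intro b hb
  simpa [Polynomial.IsRoot] using hb

lemma fin_bad {n : ℕ} (hn : 3 ≤ n) (u : Fin n → ℂ) (i j k : Fin n) (hij : i ≠ j) (hki : k ≠ i)
    (hkj : k ≠ j) : {T : ℝ | ¬ (good (cfg u i j T (T * Complex.I)) i j ∧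
      good (cfg u i j T (T * Complex.I)) i k)}.Finite := by
  have hn' : (3 : ℝ) ≤ n := by exact_mod_cast hn
  have n0 : (n : ℝ) ≠ 0 := by linarith
  set s : ℂ := (∑ k, u k - u i - u j) / n with hs
  have hcen : ∀ T : ℝ, cen (cfg u i j T (T * Complex.I)) = s + ((T / n : ℝ) : ℂ) * (1 + Complex.I) := by
    intro T
    rw [cen, cfg_sum u hij, hs]; push_cast; ring
  have f1 := quad_fin (1 - 2 / n) (-s.im - s.re) 0 (by
    have : 1 - 2 / (n : ℝ) = (n - 2) / n := by field_simp
    rw [this]; exact div_ne_zero (by linarith) n0)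
  have f2 := quad_fin (-1 / n) ((u k).im - s.im - ((u k).im - (u k).re) / n)
    (-(s.re * (u k).im) + s.im * (u k).re) (div_ne_zero (by norm_num) n0)
  refine (f1.union f2).subset ?_
  intro T hT
  simp only [Set.mem_ofPred_eq, not_and_or, good, not_not, hcen, cfg_i u hij, cfg_j,
    cfg_o u _ _ k hki hkj] at hT
  rcases hT with h | h
  · left
    simp only [Set.mem_ofPred_eq]
    refine Eq.trans ?_ h
    simp [cross]; ring
  · right
    simp only [Set.mem_ofPred_eq]
    rw [← h]; simp [cross]; ring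

lemma three {n : ℕ} (hn : 3 ≤ n) (v : Fin n → ℂ) (i j k : Fin n) (hij : i ≠ j) (hki : k ≠ i)
    (hkj : k ≠ j) (hv : good v i j) (z : ℂ) :
    ∃ w, Rch v w ∧ good w i j ∧ good w i k ∧ w k = z ∧
      ∀ l, l ≠ i → l ≠ j → l ≠ k → w l = v l := by
  obtain ⟨T, -, hT⟩ := Set.infinite_univ.exists_notMem_finite
    ((fin_bad hn v i j k hij hki hkj).union (fin_bad hn (Function.update v k z) i j k hij hki hkj))
  simp only [Set.mem_union, Set.mem_ofPred_eq, not_or, not_not] at hT
  obtain ⟨⟨a1, a2⟩, a3, a4⟩ := hT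
  refine ⟨_, (two hn _ _ i j hij hv a1 (fun l h1 h2 => cfg_o _ _ _ _ h1 h2)).trans
    (two hn _ _ i k hki.symm a2 a4 ?_), a3, a4, ?_, ?_⟩
  · intro l h1 h2
    by_cases h3 : l = j
    · rw [h3, cfg_j, cfg_j]
    · rw [cfg_o _ _ _ _ h1 h3, cfg_o _ _ _ _ h1 h3, Function.update_of_ne h2]
  · rw [cfg_o _ _ _ _ hki hkj, Function.update_self]
  · intro l h1 h2 h3
    rw [cfg_o _ _ _ _ h1 h2, Function.update_of_ne h3]

lemma good_symm {n : ℕ} {v : Fin n → ℂ} {i j : Fin n} (h : good v i j) : good v j i := by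
  intro e; apply h
  simp only [cross] at e ⊢; linarith

lemma switch {n : ℕ} (hn : 3 ≤ n) (v : Fin n → ℂ) (i j k : Fin n) (hij : i ≠ j) (hki : k ≠ i)
    (hv : good v i j) : ∃ w, Rch v w ∧ good w i k := by
  by_cases hkj : k = j
  · exact ⟨v, Relation.ReflTransGen.refl, hkj ▸ hv⟩
  · obtain ⟨w, h1, _, h2, _⟩ := three hn v i j k hij hki hkj hv 0
    exact ⟨w, h1, h2⟩

lemma reach_all {n : ℕ} (hn : 3 ≤ n) (v w : Fin n → ℂ) (i j a b : Fin n) (hab : a ≠ b)
    (hv : good v i j) (hw : good w a b) : Rch v w := by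
  classical
  have hij : i ≠ j := by
    rintro rfl; apply hv; simp only [cross]; ring
  have s1 : ∃ u, Rch v u ∧ good u a b := by
    by_cases hi : a = i
    · subst hi; exact switch hn v a j b hij hab.symm hv
    · obtain ⟨u, h1, h2⟩ := switch hn v i j a hij hi hv
      obtain ⟨u', h3, h4⟩ := switch hn u a i b hi hab.symm (good_symm h2)
      exact ⟨u', h1.trans h3, h4⟩
  have s2 : ∀ K : Finset (Fin n), ∃ u, Rch v u ∧ good u a b ∧
      ∀ k ∈ K, k ≠ a → k ≠ b → u k = w k := by
    intro K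
    induction K using Finset.induction_on with
    | empty => obtain ⟨u, h1, h2⟩ := s1; exact ⟨u, h1, h2, by simp⟩
    | insert k K hk ih =>
      obtain ⟨u, h1, h2, h3⟩ := ih
      by_cases hka : k = a ∨ k = b
      · refine ⟨u, h1, h2, fun l hl e1 e2 => ?_⟩
        rcases mem_insert.1 hl with rfl | hl
        · exact absurd hka (not_or.2 ⟨e1, e2⟩)
        · exact h3 l hl e1 e2
      · obtain ⟨k1, k2⟩ := not_or.1 hka
        obtain ⟨u', g1, g2, _, g3, g4⟩ := three hn u a b k hab k1 k2 h2 (w k)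
        refine ⟨u', h1.trans g1, g2, fun l hl e1 e2 => ?_⟩
        by_cases e3 : l = k
        · rw [e3, g3]
        · rw [g4 l e1 e2 e3, h3 l ((mem_insert.1 hl).resolve_left e3) e1 e2]
  obtain ⟨u, h1, h2, h3⟩ := s2 univ
  exact h1.trans (two hn u w a b hab h2 hw fun k e1 e2 => (h3 k (mem_univ _) e1 e2).symm)

lemma simple_good {n : ℕ} [NeZero n] (hn : 3 ≤ n) (v : Fin n → ℂ) (hv : IsSimple v) :
    ∃ i j, good v i j := by
  by_contra hno
  push Not at hno
  simp only [good, not_not] at hno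
  have h01 : (0 : Fin n) ≠ 1 := by
    intro e
    have := congrArg Fin.val e
    rw [Fin.val_zero, Fin.val_one', Nat.mod_eq_of_lt (by omega)] at this
    omega
  obtain ⟨k, hk⟩ : ∃ k, v k - cen v ≠ 0 := by
    by_contra h
    push Not at h
    exact h01 (hv.1 (by linear_combination h 0 - h 1))
  set u := v k - cen v with hu
  have hN : Complex.normSq u ≠ 0 := by simpa using hk
  have hs : ∀ i, ∃ s : ℝ, v i = cen v + s * u := by
    intro i
    have := hno i k
    rw [← hu] at this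
    refine ⟨((v i - cen v).re * u.re + (v i - cen v).im * u.im) / Complex.normSq u, ?_⟩
    rw [← sub_eq_iff_eq_add']
    generalize v i - cen v = z at this ⊢
    simp only [cross] at this
    apply Complex.ext
    · rw [Complex.re_ofReal_mul]; field_simp; rw [Complex.normSq_apply]
      linear_combination u.im * this
    · rw [Complex.im_ofReal_mul]; field_simp; rw [Complex.normSq_apply]
      linear_combination (-u.re) * this
  choose s hs using hs
  obtain ⟨m, -, hm⟩ := exists_max_image univ s ⟨0, mem_univ _⟩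
  obtain ⟨i, rfl⟩ : ∃ i, m = i + 1 := ⟨m - 1, by simp⟩
  have seg : ∀ a b c : Fin n, s a ≤ s b → s b ≤ s c → v b ∈ segment ℝ (v a) (v c) := by
    intro a b c h1 h2
    obtain ⟨p, q, hp, hq, e1, e2⟩ : s b ∈ segment ℝ (s a) (s c) := by
      rw [segment_eq_Icc (h1.trans h2)]; exact ⟨h1, h2⟩
    refine ⟨p, q, hp, hq, e1, ?_⟩
    rw [hs a, hs b, hs c, ← e2]
    have : (p : ℂ) + q = 1 := by exact_mod_cast e1
    simp only [Complex.real_smul, smul_eq_mul]; push_cast
    linear_combination (cen v) * this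
  have h2 := hv.2.1 i
  rcases le_total (s i) (s (i + 1 + 1)) with h | h
  · have : v (i + 1 + 1) ∈ ({v (i + 1)} : Set ℂ) :=
      h2 ▸ ⟨seg _ _ _ h (hm _ (mem_univ _)), right_mem_segment _ _ _⟩
    have := hv.1 (Set.mem_singleton_iff.1 this)
    exact h01 (by simpa using this.symm)
  · have : v i ∈ ({v (i + 1)} : Set ℂ) :=
      h2 ▸ ⟨left_mem_segment _ _ _, by rw [segment_symm]; exact seg _ _ _ h (hm _ (mem_univ _))⟩
    have := hv.1 (Set.mem_singleton_iff.1 this)
    exact h01 (by simpa using this)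

theorem result (n : ℕ) [NeZero n] (hn : 3 ≤ n) (v : Fin n → ℂ) (hv : IsSimple v) :
    ∃ w : Fin n → ℂ, IsRegular w ∧ Relation.ReflTransGen Move v w := by
  obtain ⟨i, j, hij⟩ := simple_good hn v hv
  let ζ := Complex.exp (2 * Real.pi * Complex.I / n)
  have hζ : IsPrimitiveRoot ζ n := Complex.isPrimitiveRoot_exp n (by omega)
  let w : Fin n → ℂ := fun k => ζ ^ (k : ℕ)
  have hw : cen w = 0 := by
    rw [cen, Fin.sum_univ_eq_sum_range (fun k => ζ ^ k), hζ.geom_sum_eq_zero (by omega), zero_div]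
  refine ⟨w, ⟨1, 0, one_ne_zero, fun k => ?_⟩,
    reach_all hn v w i j ⟨0, by omega⟩ ⟨1, by omega⟩ (by simp) hij ?_⟩
  · simp only [w, ζ, zero_add, one_mul]
    rw [← Complex.exp_nat_mul]; congr 1; ring
  · have hn' : (3 : ℝ) ≤ n := by exact_mod_cast hn
    have e : ζ = Complex.exp (((2 * Real.pi / n : ℝ) : ℂ) * Complex.I) := by
      simp only [ζ]; congr 1; push_cast; ring
    rw [good, hw]
    simp only [w, sub_zero, pow_zero, pow_one, cross, Complex.one_re, Complex.one_im,
      one_mul, zero_mul, e, Complex.exp_ofReal_mul_I_im]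
    apply ne_of_gt
    apply Real.sin_pos_of_pos_of_lt_pi (by positivity)
    rw [div_lt_iff₀ (by linarith)]
    nlinarith [Real.pi_pos]

end Pool.Agent.Results.MP_06c496_co.Reach
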